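import Pool.Agent.H37R3.Cnt

/-! Labelled six-tuples which contain a pattern of a list, and the number of six-vertex sets which span
a copy of one of them. -/

set_option autoImplicit false
set_option maxRecDepth 100000
set_option maxHeartbeats 4000000
open Finset
open scoped Classical

namespace Pool.Agent.Q133.SX
open Pool.Agent.H122R2.N6 Pool.Agent.H37R3.Pen Pool.Agent.H37R3.Cop

section
variable {V : Type} (E : V → V → V → ℕ)

/-- all triples of the pattern `m` are edges of the labelled six-tuple `x` -/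
def Has (m : ℕ) (x : Fin 6 → V) : Prop :=
  ∀ i j k : Fin 6, i < j → j < k → bt m (ti i j k) = 1 → E (x i) (x j) (x k) = 1

/-- some relabelling of the tuple has all triples of a pattern of the list -/
def RelH (M : List ℕ) (x : Fin 6 → V) : Prop :=
  ∃ g : Fin 6 → Fin 6, Function.Injective g ∧ ∃ m ∈ M, Has E m (x ∘ g)

noncomputable def XH (M : List ℕ) (x : Fin 6 → V) : ℕ := if RelH E M x then 1 else 0

theorem RelH_comp {M : List ℕ} {x : Fin 6 → V} (s : Fin 6 → Fin 6) (hs : ∀ i, s (s i) = i)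
    (h : RelH E M x) : RelH E M (x ∘ s) := by
  obtain ⟨g, hg, hc⟩ := h
  refine ⟨s ∘ g, ?_, ?_⟩
  · intro i j hij
    apply hg
    have := congrArg s hij
    simpa [hs] using this
  · have e : (x ∘ s) ∘ (s ∘ g) = x ∘ g := by
      funext i; simp [hs]
    rw [e]
    exact hc

theorem XH_comp {M : List ℕ} (x : Fin 6 → V) (s : Fin 6 → Fin 6) (hs : ∀ i, s (s i) = i) :
    XH E M (x ∘ s) = XH E M x := by
  have key : RelH E M (x ∘ s) ↔ RelH E M x := by
    constructor
    · intro h
      have := RelH_comp E s hs h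
      have e : (x ∘ s) ∘ s = x := by funext i; simp [hs]
      rwa [e] at this
    · exact RelH_comp E s hs
  unfold XH
  simp only [key]

noncomputable def XH6 (M : List ℕ) (a b c d e f : V) : ℕ := XH E M ![a, b, c, d, e, f]

theorem XH6_0 (M : List ℕ) (a b c d e f : V) : XH6 E M b a c d e f = XH6 E M a b c d e f := by
  unfold XH6
  rw [← XH_comp E ![a, b, c, d, e, f] ![1, 0, 2, 3, 4, 5] (by decide)]
  congr 1
  funext i; fin_cases i <;> rfl

theorem XH6_1 (M : List ℕ) (a b c d e f : V) : XH6 E M a c b d e f = XH6 E M a b c d e f := by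
  unfold XH6
  rw [← XH_comp E ![a, b, c, d, e, f] ![0, 2, 1, 3, 4, 5] (by decide)]
  congr 1
  funext i; fin_cases i <;> rfl

theorem XH6_2 (M : List ℕ) (a b c d e f : V) : XH6 E M a b d c e f = XH6 E M a b c d e f := by
  unfold XH6
  rw [← XH_comp E ![a, b, c, d, e, f] ![0, 1, 3, 2, 4, 5] (by decide)]
  congr 1
  funext i; fin_cases i <;> rfl

theorem XH6_3 (M : List ℕ) (a b c d e f : V) : XH6 E M a b c e d f = XH6 E M a b c d e f := by
  unfold XH6
  rw [← XH_comp E ![a, b, c, d, e, f] ![0, 1, 2, 4, 3, 5] (by decide)]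
  congr 1
  funext i; fin_cases i <;> rfl

theorem XH_eq (M : List ℕ) (x : Fin 6 → V) :
    XH6 E M (x 0) (x 1) (x 2) (x 3) (x 4) (x 5) = XH E M x := by
  unfold XH6
  congr 1
  funext i; fin_cases i <;> rfl

/-- `p` codes an injective map which turns pattern `m` into a part of `c` -/
def supB (c m p : ℕ) : Bool :=
  decide (Function.Injective (gp p)) &&
  decide (∀ i j k : Fin 6, i < j → j < k → bt m (ti i j k) = 1 → bt c (ti (gp p i) (gp p j) (gp p k)) = 1)

/-- every structure of the table contains a pattern of the list -/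
def supM (T : List (ℕ × ℕ × ℕ)) (M : List ℕ) : Bool :=
  T.all fun t => M.any (fun m => m == t.2.1) && supB t.1 t.2.1 t.2.2

theorem has_of_sup {E : V → V → V → ℕ} (hE : Sy E) {c m p : ℕ} {x : Fin 6 → V} (h : supB c m p = true)
    (hx : Copy E c x) : Function.Injective (gp p) ∧ Has E m (x ∘ gp p) := by
  unfold supB at h
  rw [Bool.and_eq_true, decide_eq_true_eq, decide_eq_true_eq] at h
  refine ⟨h.1, ?_⟩
  intro i j k hij hjk hm
  have h2 := h.2 i j k hij hjk hm
  rw [← h2]
  exact hx.full hE _ _ _ (fun e => hij.ne (h.1 e)) (fun e => (hij.trans hjk).ne (h.1 e))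
    (fun e => hjk.ne (h.1 e))

theorem hmemH_of {E : V → V → V → ℕ} (hE : Sy E) {L : List ℕ} {T : List (ℕ × ℕ × ℕ)} {M : List ℕ}
    (hLT : T.map Prod.fst = L) (hL : supM T M = true) (a b c d e f : V)
    (h : mem L (E a b c) (E a b d) (E a c d) (E b c d) (E a b e) (E a c e) (E b c e) (E a d e) (E b d e) (E c d e) (E a b f) (E a c f) (E b c f) (E a d f) (E b d f) (E c d f) (E a e f) (E b e f) (E c e f) (E d e f) = true) :
    XH6 E M a b c d e f = 1 := by
  obtain ⟨m, hm, h1⟩ := anyL_true h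
  obtain ⟨h0, h1, h2, h3, h4, h5, h6, h7, h8, h9, h10, h11, h12, h13, h14, h15, h16, h17, h18, h19⟩ := eqc_true h1
  have hc : Copy E m ![a, b, c, d, e, f] := by
    intro i j k hij hjk
    fin_cases i <;> fin_cases j <;> first | exact absurd hij (by decide) | skip
    all_goals fin_cases k <;> first | exact absurd hjk (by decide) | assumption
  rw [← hLT, List.mem_map] at hm
  obtain ⟨t, ht, h20⟩ := hm
  unfold supM at hL
  rw [List.all_eq_true] at hL
  have h21 := hL t ht
  rw [Bool.and_eq_true, List.any_eq_true] at h21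
  obtain ⟨⟨m', hm', h23⟩, h24⟩ := h21
  rw [beq_iff_eq] at h23
  rw [← h20] at hc
  obtain ⟨hi, hcop⟩ := has_of_sup hE h24 hc
  unfold XH6 XH
  rw [if_pos]
  exact ⟨gp t.2.2, hi, m', hm', by rw [h23]; exact hcop⟩

end

variable {V : Type}

/-- `S` is the vertex set of a copy of the 3-graph `F` on six vertices in `H`: some bijection from the six
vertices to `S` takes every edge of `F` to an edge of `H`. -/
def Spans (F : Finset (Finset (Fin 6))) (H : Finset (Finset V)) (S : Finset V) : Prop :=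
  ∃ f : Fin 6 → V, Function.Injective f ∧ univ.image f = S ∧ ∀ t ∈ F, t.image f ∈ H

/-- The mask `m` describes the six-vertex 3-graph `F`, all of whose pairs are covered. -/
def Mask2 (m : ℕ) (F : Finset (Finset (Fin 6))) : Prop :=
  (∀ t ∈ F, t.card = 3) ∧ Mask m F

instance (m : ℕ) (F : Finset (Finset (Fin 6))) : Decidable (Mask m F) := by
  unfold Mask; infer_instance

instance (m : ℕ) (F : Finset (Finset (Fin 6))) : Decidable (Mask2 m F) := by
  unfold Mask2; infer_instance

theorem spans_of_has {H : Finset (Finset V)} (hH : ∀ e ∈ H, e.card = 3) {m : ℕ}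
    {F : Finset (Finset (Fin 6))} (hm : Mask2 m F) {f : Fin 6 → V} (hc : Has (tri H) m f) :
    Spans F H (univ.image f) := by
  have hfull : ∀ i j k : Fin 6, i ≠ j → i ≠ k → j ≠ k → bt m (ti i j k) = 1 →
      ({f i, f j, f k} : Finset V) ∈ H := by
    intro i j k hij hik hjk hb
    have key : ∀ i j k : Fin 6, i < j → j < k → bt m (ti i j k) = 1 →
        ({f i, f j, f k} : Finset V) ∈ H := fun i j k h1 h2 h3 => tri_one.mp (hc i j k h1 h2 h3)
    rcases lt_or_gt_of_ne hij with h1 | h1 <;> rcases lt_or_gt_of_ne hik with h2 | h2 <;>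
      rcases lt_or_gt_of_ne hjk with h3 | h3
    · exact key i j k h1 h3 hb
    · have h4 := key i k j h2 h3 (by rw [ti_132]; exact hb)
      rwa [pair_comm (f k) (f j)] at h4
    · exact absurd (h1.trans h3) (not_lt.mpr h2.le)
    · have h4 := key k i j h2 h1 (by rw [ti_213, ti_132]; exact hb)
      rw [insert_comm, pair_comm (f k) (f j)] at h4
      exact h4
    · have h4 := key j i k h1 h2 (by rw [ti_213]; exact hb)
      rwa [insert_comm] at h4
    · exact absurd (h1.trans h2) (not_lt.mpr h3.le)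
    · have h4 := key j k i h3 h2 (by rw [ti_132, ti_213]; exact hb)
      rw [pair_comm (f k) (f i), insert_comm] at h4
      exact h4
    · have h4 := key k j i h3 h1 (by rw [ti_213, ti_132, ti_213]; exact hb)
      rw [insert_comm, pair_comm (f k) (f i), insert_comm] at h4
      exact h4
  have hinj : Function.Injective f := by
    intro i j hij
    by_contra hne
    obtain ⟨k, hk1, hk2, hk3⟩ := hm.2.2 i j hne
    have h1 := hfull i j k hne (Ne.symm hk1) (Ne.symm hk2) hk3
    exact (distinct_of_mem hH h1).1 hij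
  refine ⟨f, hinj, rfl, ?_⟩
  intro t ht
  obtain ⟨i, j, k, hij, hjk, rfl⟩ := sorted3 t (hm.1 t ht)
  rw [← hm.2.1 i j k hij hjk] at ht
  have := hfull i j k hij.ne (hij.trans hjk).ne hjk.ne ht
  simpa only [image_insert, image_singleton] using this

/-- `S` is the vertex set of a copy of one of the 3-graphs of the list -/
def SpansL (Fs : List (Finset (Finset (Fin 6)))) (H : Finset (Finset V)) (S : Finset V) : Prop :=
  ∃ F ∈ Fs, Spans F H S

theorem sum_XH_le [Fintype V] {H : Finset (Finset V)} (hH : ∀ e ∈ H, e.card = 3) {M : List ℕ}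
    {Fs : List (Finset (Finset (Fin 6)))} (hM : ∀ m ∈ M, ∃ F ∈ Fs, Mask2 m F) :
    ∑ x : Fin 6 → V, XH (tri H) M x ≤
      720 * (((univ : Finset V).powersetCard 6).filter fun S => SpansL Fs H S).card := by
  set TA := ((univ : Finset V).powersetCard 6).filter fun S => SpansL Fs H S with hTA
  have e1 : ∑ x : Fin 6 → V, XH (tri H) M x =
      ((univ : Finset (Fin 6 → V)).filter fun x => RelH (tri H) M x).card := by
    rw [card_filter]; rfl
  have hmap : ∀ x ∈ (univ : Finset (Fin 6 → V)).filter (fun x => RelH (tri H) M x),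
      univ.image x ∈ TA := by
    intro x hx
    rw [mem_filter] at hx
    obtain ⟨-, g, hg, m, hm, hc⟩ := hx
    obtain ⟨F, hF, hmF⟩ := hM m hm
    have hgs : Function.Surjective g := Finite.surjective_of_injective hg
    have him : univ.image (x ∘ g) = univ.image x := by
      ext v
      simp only [mem_image, mem_univ, true_and, Function.comp]
      constructor
      · rintro ⟨i, hi⟩; exact ⟨g i, hi⟩
      · rintro ⟨i, hi⟩
        obtain ⟨j, hj⟩ := hgs i
        exact ⟨j, by rw [hj]; exact hi⟩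
    have h1 := spans_of_has hH hmF hc
    rw [him] at h1
    have hcard : (univ.image x).card = 6 := by
      obtain ⟨f, hf, hfi, -⟩ := h1
      rw [← hfi, card_image_of_injective _ hf]; rfl
    rw [hTA]
    exact mem_filter.mpr ⟨mem_powersetCard.mpr ⟨subset_univ _, hcard⟩, F, hF, h1⟩
  rw [e1, card_eq_sum_card_fiberwise hmap]
  calc _ ≤ ∑ S ∈ TA, 720 := by
        refine sum_le_sum fun S hS => ?_
        have hS6 : S.card = 6 := (mem_powersetCard.mp (mem_filter.mp hS).1).2
        refine (card_le_card ?_).trans (fiber_le S hS6)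
        intro x hx
        rw [mem_filter] at hx ⊢
        exact ⟨mem_univ _, hx.2⟩
    _ = 720 * TA.card := by rw [sum_const, smul_eq_mul, mul_comm]

theorem expand (s : Finset ℕ) (w u v : ℕ → ℕ) (B : ℤ) :
    ∑ k ∈ s, (w k : ℤ) * ((u k : ℤ) - B) * ((v k : ℤ) - B) =
      ∑ k ∈ s, (w k : ℤ) * ((u k : ℤ) * (v k : ℤ)) + B ^ 2 * ∑ k ∈ s, (w k : ℤ)
        - B * (∑ k ∈ s, (w k : ℤ) * (u k : ℤ) + ∑ k ∈ s, (w k : ℤ) * (v k : ℤ)) := by
  rw [mul_add, mul_sum, mul_sum, mul_sum, ← sum_add_distrib, ← sum_add_distrib, ← sum_sub_distrib]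
  exact sum_congr rfl fun k _ => by ring

/-- from the inequality of a certificate to numbers of edges and of copies -/
theorem cert_final [Fintype V] {H : Finset (Finset V)} (hH : ∀ e ∈ H, e.card = 3) {M : List ℕ}
    {Fs : List (Finset (Finset (Fin 6)))} (hM : ∀ m ∈ M, ∃ F ∈ Fs, Mask2 m F) {O : ℤ} {S lam P C Q : ℕ} (hS : 0 < S)
    (hC : (C : ℤ) = lam * S + 60 * O) (hQ : Q = P * S)
    (hb : 45 * T2 (tri H) (fun k => (S : ℤ) * (k : ℤ)) + (15 * O + 45 * O) * (Fintype.card V : ℤ) ^ 6
      ≤ C * (Fintype.card V : ℤ) ^ 6 +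
        Q * ∑ x : Fin 6 → V, (XH6 (tri H) M (x 0) (x 1) (x 2) (x 3) (x 4) (x 5) : ℤ)) :
    1080 * Fintype.card V ^ 3 * H.card ≤ lam * Fintype.card V ^ 6 + 720 * P *
      (((univ : Finset V).powersetCard 6).filter fun S => SpansL Fs H S).card := by
  rw [T2_lin (tri H) (tri_sy H)] at hb
  simp only [XH_eq] at hb
  have h1 : ∑ x : Fin 6 → V, ((XH (tri H) M x : ℕ) : ℤ) ≤ ((720 *
      (((univ : Finset V).powersetCard 6).filter fun S => SpansL Fs H S).card : ℕ) : ℤ) := by
    exact_mod_cast sum_XH_le hH hM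
  have h2 : ((6 * H.card : ℕ) : ℤ) ≤ ∑ a, ∑ b, ∑ c, ((tri H a b c : ℕ) : ℤ) := by
    exact_mod_cast six_card_le hH
  have hSp : (0 : ℤ) < (S : ℤ) := by exact_mod_cast hS
  have h3 : (0 : ℤ) ≤ 180 * (S : ℤ) * (Fintype.card V : ℤ) ^ 3 := by positivity
  have h4 := mul_le_mul_of_nonneg_left h2 h3
  have hQ' : (Q : ℤ) = P * S := by rw [hQ]; push_cast; ring
  have h5 : (0 : ℤ) ≤ (Q : ℤ) := by positivity
  have h6 := mul_le_mul_of_nonneg_left h1 h5
  rw [hC, hQ'] at hb
  rw [hQ'] at h6
  have h7 : (S : ℤ) * (1080 * (Fintype.card V : ℤ) ^ 3 * (H.card : ℤ)) ≤ S * (lam * (Fintype.card V : ℤ) ^ 6 + 720 * P *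
      ((((univ : Finset V).powersetCard 6).filter fun S => SpansL Fs H S).card : ℤ)) := by
    push_cast at h4 h6
    nlinarith
  have h8 := le_of_mul_le_mul_left h7 hSp
  exact_mod_cast h8

end Pool.Agent.Q133.SX
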