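import Pool.Agent.Q133.SX.CB3Chk
import Pool.Agent.Q133.SX.CB3Psd
import Pool.Agent.Q133.SX.Sup

set_option autoImplicit false
set_option maxRecDepth 100000

set_option maxHeartbeats 4000000
open Finset

namespace Pool.Agent.Q133.SX.CB3
open Pool.Agent.H122R2.N6 Pool.Agent.H37R3.Pen Pool.Agent.H37R3.Cop Pool.Agent.Q133.SX

theorem hc (b012 b013 b023 b123 b014 b024 b124 b034 b134 b234 : ℕ) (hb012 : Bt b012) (hb013 : Bt b013) (hb023 : Bt b023) (hb123 : Bt b123) (hb014 : Bt b014) (hb024 : Bt b024) (hb124 : Bt b124) (hb034 : Bt b034) (hb134 : Bt b134) (hb234 : Bt b234) (ht : tg b012 b013 b023 b123 b014 b024 b124 b034 b134 b234 = 4) :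
    chkX q4 q2 CST PEN LST b012 b013 b023 b123 b014 b024 b124 b034 b134 b234 = true := by
  have h : part b012 b013 = true := by
    rcases hb012 with rfl | rfl <;> rcases hb013 with rfl | rfl
    exacts [part00, part01, part10, part11]
  have h2 := (B2_true (B2_true (B2_true (B2_true (B2_true (B2_true (B2_true (B2_true h hb023) hb123) hb014) hb024) hb124) hb034) hb134) hb234)
  refine or_false_left h2 ?_
  rw [ht]
  rfl

theorem rng : (nall 16 fun c => and (Nat.blt (rho c) 4) (nall 64 fun i => Nat.blt (pc c i) 64)) = true := by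
  decide +kernel

theorem rho_lt {c : ℕ} (h : c < 16) : rho c < 4 := by
  have := nall_true rng c h
  rw [Bool.and_eq_true] at this
  exact Nat.le_of_ble_eq_true this.1

theorem pc_lt {c i : ℕ} (h : c < 16) (hi : i < 64) : pc c i < 64 := by
  have := nall_true rng c h
  rw [Bool.and_eq_true] at this
  exact Nat.le_of_ble_eq_true (nall_true this.2 i hi)

theorem g4_all {r i j : ℕ} (hr : r < 4) (hi : i < 64) (hj : j < 64) : g4 r i j = true := by
  have h : chk4 r = true := by
    interval_cases r
    exacts [cp0, cp1, cp2, cp3]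
  exact nall_true (nall_true h i hi) j hj

theorem hq4 (c i j : ℕ) (hc : c < 16) (hi : i < 64) (hj : j < 64) : (q4 c i j : ℤ) =
    ∑ k ∈ range 73, (w4 (rho c) k : ℤ) * ((l4 (rho c) (pc c i) k : ℤ) - 524288) *
      ((l4 (rho c) (pc c j) k : ℤ) - 524288) + 288230376151711744 := by
  have h := Nat.eq_of_beq_eq_true (g4_all (rho_lt hc) (pc_lt hc hi) (pc_lt hc hj))
  unfold ll sw sl at h
  rw [nsum_eq, nsum_eq, nsum_eq, nsum_eq] at h
  have h2 := congrArg (fun n : ℕ => (n : ℤ)) h
  simp only [Nat.add_eq, Nat.mul_eq] at h2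
  push_cast at h2
  rw [expand (range 73) (fun k => w4 (rho c) k) (fun k => l4 (rho c) (pc c i) k)
    (fun k => l4 (rho c) (pc c j) k) 524288]
  have h3 : (q4 c i j : ℤ) = (tq (rho c) (pc c i) (pc c j) : ℤ) := rfl
  rw [h3]
  linarith

theorem hq2 (i j : ℕ) (hi : i < 16) (hj : j < 16) : (q2 i j : ℤ) =
    ∑ k ∈ range 11, (w2 k : ℤ) * ((l2 i k : ℤ) - 524288) * ((l2 j k : ℤ) - 524288)
      + (288230376151711744 + 3958241859993600 * ((kk i j : ℕ) : ℤ)) := by
  have h := Nat.eq_of_beq_eq_true (nall_true (nall_true cpb i hi) j hj)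
  unfold ll2 sw2 sl2 at h
  rw [nsum_eq, nsum_eq, nsum_eq, nsum_eq] at h
  have h2 := congrArg (fun n : ℕ => (n : ℤ)) h
  simp only [Nat.add_eq, Nat.mul_eq] at h2
  push_cast at h2
  rw [expand (range 11) (fun k => w2 k) (fun k => l2 i k) (fun k => l2 j k) 524288]
  linarith

/-- the listed structures with their patterns and the relabellings -/
def TAB : List (ℕ × ℕ × ℕ) := [(961594, 96979, 144453), (963642, 96979, 115725), (965690, 96979, 144453), (609406, 96979, 88264), (611454, 96979, 87809), (613502, 96979, 88264), (625790, 96979, 55504), (628862, 96979, 55042), (629886, 96979, 55504), (642174, 96979, 88264), (666750, 96979, 87816), (668798, 96979, 88257), (670846, 96979, 87816), (693374, 96979, 22737), (694398, 96979, 22282), (695422, 96979, 22737), (701566, 96979, 88257), (759934, 96979, 55042), (797822, 96979, 55056), (800894, 96979, 55490), (801918, 96979, 55056), (808062, 96979, 22289), (809086, 96979, 22730), (810110, 96979, 22289), (817278, 96979, 55490), (873598, 96979, 87809), (928894, 96979, 87816), (699577, 96979, 140008),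 (814265, 96979, 136424), (945337, 96979, 136424), (961721, 96979, 140008), (969913, 96979, 83469), (978105, 96979, 140008), (436411, 96979, 115536), (437435, 96979, 115536), (698555, 96979, 82776), (699579, 96979, 82776), (960699, 96979, 115536), (961723, 96979, 115536), (963771, 96979, 115725), (964795, 96979, 115536), (969915, 96979, 83469), (977083, 96979, 115536), (353501, 96979, 117384), (354525, 96979, 146000), (355549, 96979, 117384), (443613, 96979, 166097), (444637, 96979, 165642), (445661, 96979, 166097), (451805, 96979, 166097), (510173, 96979, 165642), (969949, 96979, 166097), (976093, 96979, 166097), (1034461, 96979, 165642), (548094, 96979, 80200), (564478, 96979, 47440), (609534, 96979, 88264), (613630, 96979, 88264), (625918, 96979, 55504), (630014, 96979, 55504), (642302, 96979, 88264), (662782, 96979, 83784), (666878, 96979, 87816), (670974, 96979, 87816), (678142, 96979, 141849), (679166, 96979, 83784), (686334, 96979, 141849), (695550, 96979, 83784), (701694, 96979, 88257), (743678, 96979, 141849), (760062, 96979,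 55042), (772350, 96979, 169219), (793854, 96979, 51024), (797950, 96979, 55056), (802046, 96979, 55056), (810238, 96979, 80200), (817406, 96979, 55490), (824574, 96979, 137754), (826622, 96979, 51024), (832766, 96979, 137754), (873726, 96979, 87809), (890110, 96979, 137754), (902398, 96979, 172803), (929022, 96979, 87816), (944382, 96979, 169156), (959742, 96979, 172740)]

def MS : List ℕ := [96979]

theorem tab1 : TAB.map Prod.fst = LST := by decide +kernel

theorem tab2 : supM TAB MS = true := by decide +kernel

def FS : List (Finset (Finset (Fin 6))) := [{{0, 1, 2}, {0, 1, 3}, {0, 1, 4}, {1, 2, 4}, {0, 3, 4}, {2, 3, 4}, {0, 2, 5}, {1, 2, 5}, {0, 3, 5}, {1, 3, 5}, {0, 4, 5}}]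

theorem masks : ∀ m ∈ MS, ∃ F ∈ FS, Mask2 m F := by
  decide +kernel

open scoped Classical in
theorem main {V : Type} [Fintype V] {H : Finset (Finset V)} (hH : ∀ e ∈ H, e.card = 3)
    (hF : K43Free H) :
    1080 * Fintype.card V ^ 3 * H.card ≤ 100 * Fintype.card V ^ 6 + 720 * 60 *
      (((univ : Finset V).powersetCard 6).filter fun S => SpansL FS H S).card := by
  have hE := tri_sy H
  have hb := boundX (tri H) hE 73 11 CST PEN (XH6 (tri H) MS) q4
    (fun c k => w4 (rho c) k) (fun c i k => l4 (rho c) (pc c i) k)
    q2 w2 l2 524288 288230376151711744 288230376151711744 (fun k => 3958241859993600 * (k : ℤ)) hq4 hq2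
    (leafX_all hE (tri_noK4 hH hF) (XH6_0 (tri H) _) (XH6_1 (tri H) _) (XH6_2 (tri H) _)
      (XH6_3 (tri H) _) (hmemH_of hE tab1 tab2) cs4 cs2 hc)
  exact cert_final hH masks (S := 3958241859993600) (O := 288230376151711744) (C := CST) (Q := PEN) (by norm_num)
    (by unfold CST; norm_num) (by unfold PEN; norm_num) (by exact_mod_cast hb)

end Pool.Agent.Q133.SX.CB3
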