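import Pool.Agent.Q133.SX.CB4Chk
import Pool.Agent.Q133.SX.CB4Psd
import Pool.Agent.Q133.SX.Sup

set_option autoImplicit false
set_option maxRecDepth 100000

set_option maxHeartbeats 4000000
open Finset

namespace Pool.Agent.Q133.SX.CB4
open Pool.Agent.H122R2.N6 Pool.Agent.H37R3.Pen Pool.Agent.H37R3.Cop Pool.Agent.Q133.SX

theorem hc (b012 b013 b023 b123 b014 b024 b124 b034 b134 b234 : ℕ) (hb012 : Bt b012) (hb013 : Bt b013) (hb023 : Bt b023) (hb123 : Bt b123) (hb014 : Bt b014) (hb024 : Bt b024) (hb124 : Bt b124) (hb034 : Bt b034) (hb134 : Bt b134) (hb234 : Bt b234) (ht : tg b012 b013 b023 b123 b014 b024 b124 b034 b134 b234 = 4) :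
    chkX q4 q2 CST PEN LST b012 b013 b023 b123 b014 b024 b124 b034 b134 b234 = true := by
  have h : part b012 b013 = true := by
    rcases hb012 with rfl | rfl <;> rcases hb013 with rfl | rfl
    exacts [part00, part01, part10, part11]
  have h2 := (B2_true (B2_true (B2_true (B2_true (B2_true (B2_true (B2_true (B2_true h hb023) hb123) hb014) hb024) hb124) hb034) hb134) hb234)
  refine or_false_left h2 ?_
  rw [ht]
  rfl

theorem rng : (nall 16 fun c => and (Nat.blt (rho c) 4) (nall 64 fun i => Nat.blt (pc c i) 64)) = true := by
  decide +kernel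

theorem rho_lt {c : ℕ} (h : c < 16) : rho c < 4 := by
  have := nall_true rng c h
  rw [Bool.and_eq_true] at this
  exact Nat.le_of_ble_eq_true this.1

theorem pc_lt {c i : ℕ} (h : c < 16) (hi : i < 64) : pc c i < 64 := by
  have := nall_true rng c h
  rw [Bool.and_eq_true] at this
  exact Nat.le_of_ble_eq_true (nall_true this.2 i hi)

theorem g4_all {r i j : ℕ} (hr : r < 4) (hi : i < 64) (hj : j < 64) : g4 r i j = true := by
  have h : chk4 r = true := by
    interval_cases r
    exacts [cp0, cp1, cp2, cp3]
  exact nall_true (nall_true h i hi) j hj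

theorem hq4 (c i j : ℕ) (hc : c < 16) (hi : i < 64) (hj : j < 64) : (q4 c i j : ℤ) =
    ∑ k ∈ range 73, (w4 (rho c) k : ℤ) * ((l4 (rho c) (pc c i) k : ℤ) - 131072) *
      ((l4 (rho c) (pc c j) k : ℤ) - 131072) + 9007199254740992 := by
  have h := Nat.eq_of_beq_eq_true (g4_all (rho_lt hc) (pc_lt hc hi) (pc_lt hc hj))
  unfold ll sw sl at h
  rw [nsum_eq, nsum_eq, nsum_eq, nsum_eq] at h
  have h2 := congrArg (fun n : ℕ => (n : ℤ)) h
  simp only [Nat.add_eq, Nat.mul_eq] at h2
  push_cast at h2
  rw [expand (range 73) (fun k => w4 (rho c) k) (fun k => l4 (rho c) (pc c i) k)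
    (fun k => l4 (rho c) (pc c j) k) 131072]
  have h3 : (q4 c i j : ℤ) = (tq (rho c) (pc c i) (pc c j) : ℤ) := rfl
  rw [h3]
  linarith

theorem hq2 (i j : ℕ) (hi : i < 16) (hj : j < 16) : (q2 i j : ℤ) =
    ∑ k ∈ range 11, (w2 k : ℤ) * ((l2 i k : ℤ) - 131072) * ((l2 j k : ℤ) - 131072)
      + (9007199254740992 + 247390116249600 * ((kk i j : ℕ) : ℤ)) := by
  have h := Nat.eq_of_beq_eq_true (nall_true (nall_true cpb i hi) j hj)
  unfold ll2 sw2 sl2 at h
  rw [nsum_eq, nsum_eq, nsum_eq, nsum_eq] at h
  have h2 := congrArg (fun n : ℕ => (n : ℤ)) h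
  simp only [Nat.add_eq, Nat.mul_eq] at h2
  push_cast at h2
  rw [expand (range 11) (fun k => w2 k) (fun k => l2 i k) (fun k => l2 j k) 131072]
  linarith

/-- the listed structures with their patterns and the relabellings -/
def TAB : List (ℕ × ℕ × ℕ) := [(959547, 96984, 144453), (961595, 96984, 144453), (963643, 96984, 144453), (964667, 96984, 144453), (976955, 96984, 144453), (1028155, 96984, 144453), (1040443, 96984, 144453), (759870, 96984, 164564), (766014, 96984, 164564), (873534, 96984, 165068), (880702, 96984, 165068), (1011774, 96984, 165068), (1028158, 96984, 164564), (642174, 96984, 172803), (701566, 96984, 172299), (759934, 96984, 168148), (766078, 96984, 165131), (772222, 96984, 169219), (817278, 96984, 168211), (873598, 96984, 172236), (880766, 96984, 164627), (902270, 96984, 172803), (928894, 96984, 172740), (944254, 96984, 168211), (959614, 96984, 172299), (714937, 96984, 82776), (715961, 96984, 82776), (844985, 96984, 50520), (847033, 96984, 50520), (967865, 96984, 50520), (968889, 96984, 82776), (969913, 96984, 82776), (976057, 96984, 50520),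 (977081, 96984, 82776), (978105, 96984, 82776), (439483, 96984, 115536), (440507, 96984, 115536), (503995, 96984, 115536), (516283, 96984, 21708), (707771, 96984, 82776), (714939, 96984, 82776), (759995, 96984, 22156), (772283, 96984, 82776), (832699, 96984, 51024), (838843, 96984, 50520), (890043, 96984, 51024), (902331, 96984, 50520), (952507, 96984, 140869), (953531, 96984, 140869), (955579, 96984, 51024), (956603, 96984, 140869), (958651, 96984, 144453), (959675, 96984, 144453), (960699, 96984, 144453), (961723, 96984, 144453), (962747, 96984, 115536), (963771, 96984, 115536), (964795, 96984, 115536), (967867, 96984, 50520), (968891, 96984, 82776), (969915, 96984, 82776), (975035, 96984, 144453), (977083, 96984, 82776), (1020091, 96984, 22156), (1032379, 96984, 21708), (359644, 96984, 117384), (687324, 96984, 84673), (892124, 96984, 47874), (976092, 96984, 11019), (1034460, 96984, 6868), (248029, 96984, 6868), (356573, 96984, 117384), (357597, 96984, 117384), (358621, 96984, 117384), (435421, 96984, 11019), (451805, 96984, 21771), (510173, 96984, 21204), (516317,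 96984, 21771), (686301, 96984, 84673), (739549, 96984, 5986), (743645, 96984, 5986), (772317, 96984, 5986), (815325, 96984, 22667), (816349, 96984, 22667), (817373, 96984, 22667), (828637, 96984, 10585), (832733, 96984, 10585), (845021, 96984, 10585), (872669, 96984, 165516), (873693, 96984, 165516), (874717, 96984, 165516), (890077, 96984, 47874), (959709, 96984, 10585), (975069, 96984, 21771), (976093, 96984, 10585), (1001693, 96984, 5986), (1032413, 96984, 21204), (1034461, 96984, 5986), (241918, 96984, 146056), (248062, 96984, 6868), (356606, 96984, 117384), (378110, 96984, 10956), (420094, 96984, 6931), (435454, 96984, 11019), (611582, 96984, 87809), (612606, 96984, 80641), (613630, 96984, 87809), (627966, 96984, 47874), (628990, 96984, 55042), (630014, 96984, 55042), (640254, 96984, 172803), (641278, 96984, 169219), (642302, 96984, 172803), (668926, 96984, 88257), (669950, 96984, 84673), (670974, 96984, 88257), (678142, 96984, 83784), (679166, 96984, 83784), (686334, 96984, 83784), (697598, 96984, 172299), (700670, 96984, 165131), (701694, 96984, 88257),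 (743678, 96984, 83784), (755966, 96984, 168148), (758014, 96984, 164564), (760062, 96984, 55042), (772350, 96984, 169219), (799998, 96984, 51906), (801022, 96984, 55490), (802046, 96984, 55490), (813310, 96984, 168211), (815358, 96984, 164627), (817406, 96984, 55490), (824574, 96984, 51024), (826622, 96984, 51024), (832766, 96984, 51024), (869630, 96984, 172236), (872702, 96984, 165068), (873726, 96984, 87809), (890110, 96984, 51024), (902398, 96984, 172803), (926974, 96984, 172740), (927998, 96984, 169156), (929022, 96984, 172740), (944382, 96984, 168211), (959742, 96984, 172299)]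

def MS : List ℕ := [96984]

theorem tab1 : TAB.map Prod.fst = LST := by decide +kernel

theorem tab2 : supM TAB MS = true := by decide +kernel

def FS : List (Finset (Finset (Fin 6))) := [{{1, 2, 3}, {0, 1, 4}, {1, 2, 4}, {0, 3, 4}, {2, 3, 4}, {0, 2, 5}, {1, 2, 5}, {0, 3, 5}, {1, 3, 5}, {0, 4, 5}}]

theorem masks : ∀ m ∈ MS, ∃ F ∈ FS, Mask2 m F := by
  decide +kernel

open scoped Classical in
theorem main {V : Type} [Fintype V] {H : Finset (Finset V)} (hH : ∀ e ∈ H, e.card = 3)
    (hF : K43Free H) :
    1080 * Fintype.card V ^ 3 * H.card ≤ 100 * Fintype.card V ^ 6 + 720 * 60 *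
      (((univ : Finset V).powersetCard 6).filter fun S => SpansL FS H S).card := by
  have hE := tri_sy H
  have hb := boundX (tri H) hE 73 11 CST PEN (XH6 (tri H) MS) q4
    (fun c k => w4 (rho c) k) (fun c i k => l4 (rho c) (pc c i) k)
    q2 w2 l2 131072 9007199254740992 9007199254740992 (fun k => 247390116249600 * (k : ℤ)) hq4 hq2
    (leafX_all hE (tri_noK4 hH hF) (XH6_0 (tri H) _) (XH6_1 (tri H) _) (XH6_2 (tri H) _)
      (XH6_3 (tri H) _) (hmemH_of hE tab1 tab2) cs4 cs2 hc)
  exact cert_final hH masks (S := 247390116249600) (O := 9007199254740992) (C := CST) (Q := PEN) (by norm_num)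
    (by unfold CST; norm_num) (by unfold PEN; norm_num) (by exact_mod_cast hb)

end Pool.Agent.Q133.SX.CB4
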