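import Pool.Agent.Q133.SX.CB5Chk
import Pool.Agent.Q133.SX.CB5Psd
import Pool.Agent.Q133.SX.Sup

set_option autoImplicit false
set_option maxRecDepth 100000

set_option maxHeartbeats 4000000
open Finset

namespace Pool.Agent.Q133.SX.CB5
open Pool.Agent.H122R2.N6 Pool.Agent.H37R3.Pen Pool.Agent.H37R3.Cop Pool.Agent.Q133.SX

theorem hc (b012 b013 b023 b123 b014 b024 b124 b034 b134 b234 : ℕ) (hb012 : Bt b012) (hb013 : Bt b013) (hb023 : Bt b023) (hb123 : Bt b123) (hb014 : Bt b014) (hb024 : Bt b024) (hb124 : Bt b124) (hb034 : Bt b034) (hb134 : Bt b134) (hb234 : Bt b234) (ht : tg b012 b013 b023 b123 b014 b024 b124 b034 b134 b234 = 4) :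
    chkX q4 q2 CST PEN LST b012 b013 b023 b123 b014 b024 b124 b034 b134 b234 = true := by
  have h : part b012 b013 = true := by
    rcases hb012 with rfl | rfl <;> rcases hb013 with rfl | rfl
    exacts [part00, part01, part10, part11]
  have h2 := (B2_true (B2_true (B2_true (B2_true (B2_true (B2_true (B2_true (B2_true h hb023) hb123) hb014) hb024) hb124) hb034) hb134) hb234)
  refine or_false_left h2 ?_
  rw [ht]
  rfl

theorem rng : (nall 16 fun c => and (Nat.blt (rho c) 4) (nall 64 fun i => Nat.blt (pc c i) 64)) = true := by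
  decide +kernel

theorem rho_lt {c : ℕ} (h : c < 16) : rho c < 4 := by
  have := nall_true rng c h
  rw [Bool.and_eq_true] at this
  exact Nat.le_of_ble_eq_true this.1

theorem pc_lt {c i : ℕ} (h : c < 16) (hi : i < 64) : pc c i < 64 := by
  have := nall_true rng c h
  rw [Bool.and_eq_true] at this
  exact Nat.le_of_ble_eq_true (nall_true this.2 i hi)

theorem g4_all {r i j : ℕ} (hr : r < 4) (hi : i < 64) (hj : j < 64) : g4 r i j = true := by
  have h : chk4 r = true := by
    interval_cases r
    exacts [cp0, cp1, cp2, cp3]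
  exact nall_true (nall_true h i hi) j hj

theorem hq4 (c i j : ℕ) (hc : c < 16) (hi : i < 64) (hj : j < 64) : (q4 c i j : ℤ) =
    ∑ k ∈ range 73, (w4 (rho c) k : ℤ) * ((l4 (rho c) (pc c i) k : ℤ) - 131072) *
      ((l4 (rho c) (pc c j) k : ℤ) - 131072) + 18014398509481984 := by
  have h := Nat.eq_of_beq_eq_true (g4_all (rho_lt hc) (pc_lt hc hi) (pc_lt hc hj))
  unfold ll sw sl at h
  rw [nsum_eq, nsum_eq, nsum_eq, nsum_eq] at h
  have h2 := congrArg (fun n : ℕ => (n : ℤ)) h
  simp only [Nat.add_eq, Nat.mul_eq] at h2
  push_cast at h2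
  rw [expand (range 73) (fun k => w4 (rho c) k) (fun k => l4 (rho c) (pc c i) k)
    (fun k => l4 (rho c) (pc c j) k) 131072]
  have h3 : (q4 c i j : ℤ) = (tq (rho c) (pc c i) (pc c j) : ℤ) := rfl
  rw [h3]
  linarith

theorem hq2 (i j : ℕ) (hi : i < 16) (hj : j < 16) : (q2 i j : ℤ) =
    ∑ k ∈ range 11, (w2 k : ℤ) * ((l2 i k : ℤ) - 131072) * ((l2 j k : ℤ) - 131072)
      + (18014398509481984 + 247390116249600 * ((kk i j : ℕ) : ℤ)) := by
  have h := Nat.eq_of_beq_eq_true (nall_true (nall_true cpb i hi) j hj)
  unfold ll2 sw2 sl2 at h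
  rw [nsum_eq, nsum_eq, nsum_eq, nsum_eq] at h
  have h2 := congrArg (fun n : ℕ => (n : ℤ)) h
  simp only [Nat.add_eq, Nat.mul_eq] at h2
  push_cast at h2
  rw [expand (range 11) (fun k => w2 k) (fun k => l2 i k) (fun k => l2 j k) 131072]
  linarith

/-- the listed structures with their patterns and the relabellings -/
def TAB : List (ℕ × ℕ × ℕ) := [(695358, 89031, 144453), (701502, 89031, 140904), (810046, 89031, 144005), (817214, 89031, 136872), (941118, 89031, 144005), (957502, 89031, 144453), (613502, 89031, 143893), (629886, 89031, 144397), (642174, 89031, 140841), (670846, 89031, 115221), (695422, 89031, 144453), (701566, 89031, 140904), (759934, 89031, 104616), (801918, 89031, 115725), (810110, 89031, 115781), (817278, 89031, 136872), (873598, 89031, 108648), (928894, 89031, 108585), (937145, 89031, 106849), (943289, 89031, 80417), (945337, 89031, 80417), (947385, 89031, 80417), (953529, 89031, 102754), (960697, 89031, 47650), (961721, 89031, 47650), (964793, 89031, 47650), (969913, 89031, 106849), (976057, 89031, 80417), (977081, 89031, 47650),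 (978105, 89031, 80417), (445627, 89031, 144040), (701627, 89031, 140008), (931003, 89031, 78177), (937147, 89031, 106849), (953531, 89031, 102754), (959675, 89031, 69987), (960699, 89031, 47650), (961723, 89031, 47650), (963771, 89031, 140008), (964795, 89031, 47650), (969915, 89031, 144040), (977083, 89031, 47650), (320733, 89031, 153154), (445661, 89031, 144488), (451805, 89031, 153154), (477405, 89031, 120961), (510173, 89031, 120961), (816349, 89031, 139973), (817373, 89031, 136424), (845021, 89031, 153154), (873693, 89031, 107304), (874717, 89031, 103685), (969949, 89031, 144488), (976093, 89031, 153154), (1001693, 89031, 120961), (1034461, 89031, 120961), (547070, 89031, 180307), (548094, 89031, 152083), (555262, 89031, 180307), (562430, 89031, 180363), (564478, 89031, 152587), (570622, 89031, 180363), (612606, 89031, 180307), (613630, 89031, 152083), (627966, 89031, 180363), (630014, 89031, 152587), (642302, 89031, 140841), (661758, 89031, 176212), (662782, 89031, 119316), (669950, 89031, 176212), (670974, 89031, 119316), (678142, 89031, 180307),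 (679166, 89031, 152083), (682238, 89031, 87816), (686334, 89031, 87816), (695550, 89031, 152587), (701694, 89031, 140904), (727294, 89031, 176212), (739582, 89031, 88264), (743678, 89031, 88264), (760062, 89031, 104616), (772350, 89031, 88264), (791806, 89031, 176268), (793854, 89031, 119820), (799998, 89031, 176268), (802046, 89031, 119820), (810238, 89031, 152083), (817406, 89031, 136872), (824574, 89031, 180363), (826622, 89031, 152587), (828670, 89031, 55056), (832766, 89031, 55056), (857342, 89031, 176268), (873726, 89031, 108648), (886014, 89031, 55504), (890110, 89031, 55504), (902398, 89031, 55504), (929022, 89031, 108585), (944382, 89031, 87816), (959742, 89031, 55056)]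

def MS : List ℕ := [89031]

theorem tab1 : TAB.map Prod.fst = LST := by decide +kernel

theorem tab2 : supM TAB MS = true := by decide +kernel

def FS : List (Finset (Finset (Fin 6))) := [{{0, 1, 2}, {0, 1, 3}, {0, 2, 3}, {1, 2, 4}, {0, 3, 4}, {1, 3, 4}, {2, 3, 4}, {0, 2, 5}, {1, 2, 5}, {1, 3, 5}, {0, 4, 5}}]

theorem masks : ∀ m ∈ MS, ∃ F ∈ FS, Mask2 m F := by
  decide +kernel

open scoped Classical in
theorem main {V : Type} [Fintype V] {H : Finset (Finset V)} (hH : ∀ e ∈ H, e.card = 3)
    (hF : K43Free H) :
    1080 * Fintype.card V ^ 3 * H.card ≤ 100 * Fintype.card V ^ 6 + 720 * 60 *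
      (((univ : Finset V).powersetCard 6).filter fun S => SpansL FS H S).card := by
  have hE := tri_sy H
  have hb := boundX (tri H) hE 73 11 CST PEN (XH6 (tri H) MS) q4
    (fun c k => w4 (rho c) k) (fun c i k => l4 (rho c) (pc c i) k)
    q2 w2 l2 131072 18014398509481984 18014398509481984 (fun k => 247390116249600 * (k : ℤ)) hq4 hq2
    (leafX_all hE (tri_noK4 hH hF) (XH6_0 (tri H) _) (XH6_1 (tri H) _) (XH6_2 (tri H) _)
      (XH6_3 (tri H) _) (hmemH_of hE tab1 tab2) cs4 cs2 hc)
  exact cert_final hH masks (S := 247390116249600) (O := 18014398509481984) (C := CST) (Q := PEN) (by norm_num)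
    (by unfold CST; norm_num) (by unfold PEN; norm_num) (by exact_mod_cast hb)

end Pool.Agent.Q133.SX.CB5
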