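import Pool.Agent.Q133.SX.ClsT

/-! Every 3-graph on six vertices with at most eight edges and without K4 is part of one of seven
3-graphs. -/

set_option autoImplicit false
set_option maxRecDepth 100000
set_option maxHeartbeats 4000000
open Finset
open scoped Classical

namespace Pool.Agent.Q133.SX
open Pool.Agent.H122R2.N6 Pool.Agent.H37R3.Pen Pool.Agent.H37R3.Cop

/-- the number of edges of a labelled six-tuple -/
def NN {V : Type} (E : V → V → V → ℕ) (a b c d e f : V) : ℕ := sm (E a b c) (E a b d) (E a c d) (E b c d) (E a b e) (E a c e) (E b c e) (E a d e) (E b d e) (E c d e) (E a b f) (E a c f) (E b c f) (E a d f) (E b d f) (E c d f) (E a e f) (E b e f) (E c e f) (E d e f)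

/-- the tuple is part of one of the patterns -/
def Cv {V : Type} (E : V → V → V → ℕ) (x : Fin 6 → V) : Prop :=
  ∃ g : Fin 6 → Fin 6, Function.Injective g ∧ ∃ m ∈ M6, ∀ i j k : Fin 6, i ≠ j → i ≠ k → j ≠ k →
    E (x i) (x j) (x k) = 1 → bt m (ti (g i) (g j) (g k)) = 1

theorem Cv_comp {V : Type} {E : V → V → V → ℕ} {x : Fin 6 → V} (s : Fin 6 → Fin 6)
    (hs : ∀ i, s (s i) = i) (h : Cv E (x ∘ s)) : Cv E x := by
  obtain ⟨g, hg, m, hm, hc⟩ := h
  have hsi : Function.Injective s := by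
    intro i j hij
    have := congrArg s hij
    simpa [hs] using this
  refine ⟨g ∘ s, hg.comp hsi, m, hm, ?_⟩
  intro i j k hij hik hjk h1
  refine hc (s i) (s j) (s k) (fun h => hij (hsi h)) (fun h => hik (hsi h)) (fun h => hjk (hsi h)) ?_
  simp only [Function.comp, hs]
  exact h1

/-- statement carried through the walk -/
def PP {V : Type} (E : V → V → V → ℕ) (a b c d e f : V) : Prop :=
  NN E a b c d e f ≤ 8 → Cv E ![a, b, c, d, e, f]

theorem PP0 {V : Type} {E : V → V → V → ℕ} (hE : Sy E) (a b c d e f : V) (h : PP E b a c d e f) :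
    PP E a b c d e f := by
  intro h1
  refine Cv_comp ![1, 0, 2, 3, 4, 5] (by decide) ?_
  have e1 : (![a, b, c, d, e, f] : Fin 6 → V) ∘ ![1, 0, 2, 3, 4, 5] = ![b, a, c, d, e, f] := by
    funext i; fin_cases i <;> rfl
  rw [e1]
  apply h
  unfold NN sm at h1 ⊢
  simp only [Nat.add_eq] at h1 ⊢
  rw [hE.h213 a b c, hE.h213 a b d, hE.h213 a b e, hE.h213 a b f]
  omega

theorem PP1 {V : Type} {E : V → V → V → ℕ} (hE : Sy E) (a b c d e f : V) (h : PP E a c b d e f) :
    PP E a b c d e f := by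
  intro h1
  refine Cv_comp ![0, 2, 1, 3, 4, 5] (by decide) ?_
  have e1 : (![a, b, c, d, e, f] : Fin 6 → V) ∘ ![0, 2, 1, 3, 4, 5] = ![a, c, b, d, e, f] := by
    funext i; fin_cases i <;> rfl
  rw [e1]
  apply h
  unfold NN sm at h1 ⊢
  simp only [Nat.add_eq] at h1 ⊢
  rw [hE.h132 a b c, hE.h213 b c d, hE.h213 b c e, hE.h213 b c f]
  omega

theorem PP2 {V : Type} {E : V → V → V → ℕ} (hE : Sy E) (a b c d e f : V) (h : PP E a b d c e f) :
    PP E a b c d e f := by
  intro h1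
  refine Cv_comp ![0, 1, 3, 2, 4, 5] (by decide) ?_
  have e1 : (![a, b, c, d, e, f] : Fin 6 → V) ∘ ![0, 1, 3, 2, 4, 5] = ![a, b, d, c, e, f] := by
    funext i; fin_cases i <;> rfl
  rw [e1]
  apply h
  unfold NN sm at h1 ⊢
  simp only [Nat.add_eq] at h1 ⊢
  rw [hE.h132 a c d, hE.h132 b c d, hE.h213 c d e, hE.h213 c d f]
  omega

theorem PP3 {V : Type} {E : V → V → V → ℕ} (hE : Sy E) (a b c d e f : V) (h : PP E a b c e d f) :
    PP E a b c d e f := by
  intro h1
  refine Cv_comp ![0, 1, 2, 4, 3, 5] (by decide) ?_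
  have e1 : (![a, b, c, d, e, f] : Fin 6 → V) ∘ ![0, 1, 2, 4, 3, 5] = ![a, b, c, e, d, f] := by
    funext i; fin_cases i <;> rfl
  rw [e1]
  apply h
  unfold NN sm at h1 ⊢
  simp only [Nat.add_eq] at h1 ⊢
  rw [hE.h132 a d e, hE.h132 b d e, hE.h132 c d e, hE.h213 d e f]
  omega

theorem bt_lt (c i : ℕ) : bt c i < 2 := Nat.mod_lt _ (by norm_num)

theorem PPr {V : Type} {E : V → V → V → ℕ} (hE : Sy E) (hK : NoK4 E) (a b c d e f : V)
    (ht : tg (E a b c) (E a b d) (E a c d) (E b c d) (E a b e) (E a c e) (E b c e)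
      (E a d e) (E b d e) (E c d e) = 4) : PP E a b c d e f := by
  intro hN
  have h0 := (B2_true (B2_true (B2_true (B2_true (B2_true (B2_true (B2_true (B2_true (B2_true (B2_true allC_true (hE.b a b c)) (hE.b a b d)) (hE.b a c d)) (hE.b b c d)) (hE.b a b e)) (hE.b a c e)) (hE.b b c e)) (hE.b a d e)) (hE.b b d e)) (hE.b c d e))
  have h : chkC (E a b c) (E a b d) (E a c d) (E b c d) (E a b e) (E a c e) (E b c e)
      (E a d e) (E b d e) (E c d e) = true := by
    refine or_false_left h0 ?_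
    rw [ht]
    rfl
  have h1 := (or_false_left (or_false_left (or_false_left (B2_true (or_false_left (or_false_left (B2_true (or_false_left (B2_true (B2_true (or_false_left (or_false_left (B2_true (or_false_left (B2_true (B2_true (or_false_left (B2_true (B2_true (B2_true h (hE.b a b f)) (hE.b a c f)) (hE.b b c f)) (hK a b c f)) (hE.b a d f)) (hE.b b d f)) (hK a b d f)) (hE.b c d f)) (hK a c d f)) (hK b c d f)) (hE.b a e f)) (hE.b b e f)) (hK a b e f)) (hE.b c e f)) (hK a c e f)) (hK b c e f)) (hE.b d e f)) (hK a d e f)) (hK b d e f)) (hK c d e f))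
  have h2 : Nat.blt 8 (NN E a b c d e f) = false := by
    rw [Bool.eq_false_iff]
    intro hh
    have h9 : 8 < NN E a b c d e f := Nat.le_of_ble_eq_true hh
    omega
  have h3 := or_false_left h1 h2
  obtain ⟨c0, hc0, h4⟩ := anyL_true h3
  rw [← im1, List.mem_map] at hc0
  obtain ⟨t, ht1, ht2⟩ := hc0
  have h5 := im2
  rw [List.all_eq_true] at h5
  have h6 := h5 t ht1
  rw [Bool.and_eq_true, List.any_eq_true] at h6
  obtain ⟨⟨m', hm', h7⟩, h8⟩ := h6
  rw [beq_iff_eq] at h7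
  unfold supB at h8
  rw [Bool.and_eq_true, decide_eq_true_eq, decide_eq_true_eq] at h8
  unfold lec at h4
  simp only [Bool.and_eq_true, Nat.ble_eq] at h4
  obtain ⟨q0, q1, q2, q3, q4, q5, q6, q7, q8, q9, q10, q11, q12, q13, q14, q15, q16, q17, q18, q19⟩ := h4
  have hle : ∀ i j k : Fin 6, i < j → j < k →
      E ((![a, b, c, d, e, f] : Fin 6 → V) i) ((![a, b, c, d, e, f] : Fin 6 → V) j)
        ((![a, b, c, d, e, f] : Fin 6 → V) k) ≤ bt c0 (ti i j k) := by
    intro i j k hij hjk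
    fin_cases i <;> fin_cases j <;> first | exact absurd hij (by decide) | skip
    all_goals fin_cases k <;> first | exact absurd hjk (by decide) | assumption
  have hs : ∀ i j k : Fin 6, i < j → j < k →
      E ((![a, b, c, d, e, f] : Fin 6 → V) i) ((![a, b, c, d, e, f] : Fin 6 → V) j)
        ((![a, b, c, d, e, f] : Fin 6 → V) k) = 1 →
      bt m' (ti (gp t.2.2 i) (gp t.2.2 j) (gp t.2.2 k)) = 1 := by
    intro i j k hij hjk h9
    have h10 := hle i j k hij hjk
    have h11 := bt_lt c0 (ti i j k)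
    rw [h7]
    refine h8.2 i j k hij hjk ?_
    rw [ht2]
    omega
  refine ⟨gp t.2.2, h8.1, m', hm', ?_⟩
  intro i j k hij hik hjk h9
  rcases lt_or_gt_of_ne hij with h1 | h1 <;> rcases lt_or_gt_of_ne hik with h2 | h2 <;>
    rcases lt_or_gt_of_ne hjk with h3 | h3
  · exact hs i j k h1 h3 h9
  · rw [← ti_132]; exact hs i k j h2 h3 (by rw [hE.h132]; exact h9)
  · exact absurd (h1.trans h3) (not_lt.mpr h2.le)
  · rw [← ti_132, ← ti_213]; exact hs k i j h2 h1 (by rw [hE.h213, hE.h132]; exact h9)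
  · rw [← ti_213]; exact hs j i k h1 h2 (by rw [hE.h213]; exact h9)
  · exact absurd (h1.trans h2) (not_lt.mpr h3.le)
  · rw [← ti_213, ← ti_132]; exact hs j k i h3 h2 (by rw [hE.h132, hE.h213]; exact h9)
  · rw [← ti_213, ← ti_132, ← ti_213]
    exact hs k j i h3 h1 (by rw [hE.h213, hE.h132, hE.h213]; exact h9)

theorem PP_all {V : Type} {E : V → V → V → ℕ} (hE : Sy E) (hK : NoK4 E) (a b c d e f : V) :
    PP E a b c d e f :=
  walk_prop hE (PP E) (PP0 hE) (PP1 hE) (PP2 hE) (PP3 hE) (PPr hE hK) hK a b c d e f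

/-- the six 3-graphs -/
def F6L : List (Finset (Finset (Fin 6))) := [{{0, 1, 2}, {0, 1, 3}, {0, 2, 4}, {1, 2, 4}, {0, 3, 4}, {1, 3, 4}, {2, 3, 4}, {0, 2, 5}, {1, 2, 5}, {0, 3, 5}, {1, 3, 5}, {2, 3, 5}, {0, 4, 5}, {1, 4, 5}},
  {{0, 1, 2}, {0, 2, 3}, {1, 2, 3}, {0, 2, 4}, {1, 2, 4}, {0, 3, 4}, {1, 3, 4}, {0, 2, 5}, {1, 2, 5}, {0, 3, 5}, {1, 3, 5}, {0, 4, 5}, {1, 4, 5}},
  {{0, 1, 3}, {0, 2, 3}, {1, 2, 3}, {0, 1, 4}, {0, 2, 4}, {1, 2, 4}, {0, 3, 4}, {0, 1, 5}, {0, 2, 5}, {1, 2, 5}, {0, 3, 5}, {0, 4, 5}},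
  {{0, 1, 2}, {0, 1, 3}, {1, 2, 3}, {0, 2, 4}, {1, 2, 4}, {0, 3, 4}, {1, 3, 4}, {0, 2, 5}, {1, 2, 5}, {0, 3, 5}, {1, 3, 5}, {0, 4, 5}},
  {{0, 1, 2}, {0, 1, 3}, {0, 2, 3}, {0, 1, 4}, {0, 2, 4}, {2, 3, 4}, {0, 2, 5}, {1, 2, 5}, {0, 3, 5}, {1, 3, 5}, {0, 4, 5}, {1, 4, 5}},
  {{1, 2, 3}, {0, 1, 4}, {1, 2, 4}, {0, 3, 4}, {2, 3, 4}, {0, 2, 5}, {1, 2, 5}, {0, 3, 5}, {1, 3, 5}, {0, 4, 5}},
  {{0, 1, 2}, {0, 1, 3}, {0, 2, 3}, {1, 2, 4}, {0, 3, 4}, {1, 3, 4}, {2, 3, 4}, {0, 2, 5}, {1, 2, 5}, {1, 3, 5}, {0, 4, 5}}]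

theorem masks6 : ∀ m ∈ M6, ∃ F ∈ F6L, Mask2 m F := by
  decide +kernel

theorem mask_mem {m : ℕ} {F : Finset (Finset (Fin 6))} (h : Mask2 m F) (i j k : Fin 6) (hij : i ≠ j)
    (hik : i ≠ k) (hjk : j ≠ k) (hb : bt m (ti i j k) = 1) : ({i, j, k} : Finset (Fin 6)) ∈ F := by
  rcases lt_or_gt_of_ne hij with h1 | h1 <;> rcases lt_or_gt_of_ne hik with h2 | h2 <;>
    rcases lt_or_gt_of_ne hjk with h3 | h3
  · exact (h.2.1 i j k h1 h3).mp hb
  · rw [pair_comm j k]; exact (h.2.1 i k j h2 h3).mp (by rw [ti_132]; exact hb)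
  · exact absurd (h1.trans h3) (not_lt.mpr h2.le)
  · rw [pair_comm j k, insert_comm]; exact (h.2.1 k i j h2 h1).mp (by rw [ti_213, ti_132]; exact hb)
  · rw [insert_comm]; exact (h.2.1 j i k h1 h2).mp (by rw [ti_213]; exact hb)
  · exact absurd (h1.trans h2) (not_lt.mpr h3.le)
  · rw [insert_comm, pair_comm i k]; exact (h.2.1 j k i h3 h2).mp (by rw [ti_132, ti_213]; exact hb)
  · rw [insert_comm, pair_comm i k, insert_comm]
    exact (h.2.1 k j i h3 h1).mp (by rw [ti_213, ti_132, ti_213]; exact hb)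

theorem all20 : (univ : Finset (Fin 6)).powersetCard 3 = {{0, 1, 2}, {0, 1, 3}, {0, 2, 3}, {1, 2, 3}, {0, 1, 4}, {0, 2, 4}, {1, 2, 4}, {0, 3, 4}, {1, 3, 4}, {2, 3, 4}, {0, 1, 5}, {0, 2, 5}, {1, 2, 5}, {0, 3, 5}, {1, 3, 5}, {2, 3, 5}, {0, 4, 5}, {1, 4, 5}, {2, 4, 5}, {3, 4, 5}} := by decide +kernel

theorem tri_fin (F : Finset (Finset (Fin 6))) (i j k : Fin 6) :
    tri F i j k = if ({i, j, k} : Finset (Fin 6)) ∈ F then 1 else 0 := by
  have h : (@insert (Fin 6) (Finset (Fin 6)) (@Finset.instInsert _ (fun a b => Classical.propDecidable (a = b))) i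
      (@insert (Fin 6) (Finset (Fin 6)) (@Finset.instInsert _ (fun a b => Classical.propDecidable (a = b))) j {k}))
        = ({i, j, k} : Finset (Fin 6)) := by
    have e : (fun a b => Classical.propDecidable (a = b)) = instDecidableEqFin 6 := Subsingleton.elim _ _
    rw [e]
  unfold tri
  rw [h]
  by_cases hm : ({i, j, k} : Finset (Fin 6)) ∈ F
  · rw [if_pos hm, if_pos hm]
  · rw [if_neg hm, if_neg hm]

/-- a 3-graph on six vertices with at most eight edges and without K4 is part of one of the seven -/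
theorem part_of_six {F : Finset (Finset (Fin 6))} (hu : ∀ t ∈ F, t.card = 3) (hK : K43Free F)
    (h8 : F.card ≤ 8) : ∃ G ∈ F6L, ∃ g : Fin 6 → Fin 6, Function.Injective g ∧
      ∀ t ∈ F, t.image g ∈ G := by
  have hN : NN (tri F) 0 1 2 3 4 5 ≤ 8 := by
    refine le_trans (le_of_eq ?_) h8
    have e1 : F = ((univ : Finset (Fin 6)).powersetCard 3).filter (fun t => t ∈ F) := by
      ext t
      rw [mem_filter, mem_powersetCard]
      exact ⟨fun h => ⟨⟨subset_univ _, hu t h⟩, h⟩, fun h => h.2⟩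
    have e2 : F.card = ∑ t ∈ (univ : Finset (Fin 6)).powersetCard 3, if t ∈ F then 1 else 0 := by
      rw [← card_filter]
      exact congrArg Finset.card e1
    rw [all20] at e2
    rw [e2]
    unfold NN sm
    simp only [Nat.add_eq, tri_fin]
    rw [sum_insert (by decide)]
    rw [sum_insert (by decide)]
    rw [sum_insert (by decide)]
    rw [sum_insert (by decide)]
    rw [sum_insert (by decide)]
    rw [sum_insert (by decide)]
    rw [sum_insert (by decide)]
    rw [sum_insert (by decide)]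
    rw [sum_insert (by decide)]
    rw [sum_insert (by decide)]
    rw [sum_insert (by decide)]
    rw [sum_insert (by decide)]
    rw [sum_insert (by decide)]
    rw [sum_insert (by decide)]
    rw [sum_insert (by decide)]
    rw [sum_insert (by decide)]
    rw [sum_insert (by decide)]
    rw [sum_insert (by decide)]
    rw [sum_insert (by decide)]
    rw [sum_singleton]
    ring
  obtain ⟨g, hg, m, hm, hc⟩ := PP_all (tri_sy F) (tri_noK4 hu hK) 0 1 2 3 4 5 hN
  obtain ⟨G, hG, hmG⟩ := masks6 m hm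
  refine ⟨G, hG, g, hg, ?_⟩
  intro t ht
  obtain ⟨i, j, k, hij, hjk, rfl⟩ := sorted3 t (hu t ht)
  have e2 : (![0, 1, 2, 3, 4, 5] : Fin 6 → Fin 6) = id := by funext i; fin_cases i <;> rfl
  have h1 := hc i j k hij.ne (hij.trans hjk).ne hjk.ne (by rw [e2, tri_fin]; exact if_pos ht)
  have h2 := mask_mem hmG _ _ _ (fun h => hij.ne (hg h)) (fun h => (hij.trans hjk).ne (hg h))
    (fun h => hjk.ne (hg h)) h1
  simpa only [image_insert, image_singleton] using h2

theorem spans_mono {V : Type} {H : Finset (Finset V)} {S : Finset V} {F G : Finset (Finset (Fin 6))}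
    {g : Fin 6 → Fin 6} (hg : Function.Injective g) (h : ∀ t ∈ F, t.image g ∈ G)
    (hS : Spans G H S) : Spans F H S := by
  obtain ⟨f, hf, hfS, hfe⟩ := hS
  refine ⟨f ∘ g, hf.comp hg, ?_, ?_⟩
  · have hgs : Function.Surjective g := Finite.surjective_of_injective hg
    rw [← hfS, ← image_image, image_univ_of_surjective hgs]
  · intro t ht
    rw [← image_image]
    exact hfe _ (h t ht)

end Pool.Agent.Q133.SX
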