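import Pool.Agent.Q133.SX.Sup
import Pool.Agent.H122R2.N6.Walk

/-! Every 3-graph on six vertices with at most eight edges and without K4 is part of one of six
3-graphs. -/

set_option autoImplicit false
set_option maxRecDepth 100000
set_option maxHeartbeats 4000000
open Finset
open scoped Classical

namespace Pool.Agent.Q133.SX
open Pool.Agent.H122R2.N6 Pool.Agent.H37R3.Pen Pool.Agent.H37R3.Cop

theorem walk_prop {V : Type} {E : V → V → V → ℕ} (hE : Sy E) (P : V → V → V → V → V → V → Prop)
    (h0 : ∀ a b c d e f, P b a c d e f → P a b c d e f)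
    (h1 : ∀ a b c d e f, P a c b d e f → P a b c d e f)
    (h2 : ∀ a b c d e f, P a b d c e f → P a b c d e f)
    (h3 : ∀ a b c d e f, P a b c e d f → P a b c d e f)
    (hr : ∀ a b c d e f, tg (E a b c) (E a b d) (E a c d) (E b c d) (E a b e) (E a c e) (E b c e)
      (E a d e) (E b d e) (E c d e) = 4 → P a b c d e f)
    (hK : NoK4 E) (a b c d e f : V) : P a b c d e f := by
  have key : ∀ n : ℕ, ∀ a b c d e f : V, walk n (E a b c) (E a b d) (E a c d) (E b c d) (E a b e)
      (E a c e) (E b c e) (E a d e) (E b d e) (E c d e) = true → P a b c d e f := by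
    intro n
    induction n with
    | zero =>
      intro a b c d e f h
      exact hr _ _ _ _ _ _ (Nat.eq_of_beq_eq_true h)
    | succ n ih =>
      intro a b c d e f h
      change (cond (Nat.beq (tg (E a b c) (E a b d) (E a c d) (E b c d) (E a b e) (E a c e) (E b c e) (E a d e) (E b d e) (E c d e)) 4) true
        (cond (Nat.beq (tg (E a b c) (E a b d) (E a c d) (E b c d) (E a b e) (E a c e) (E b c e) (E a d e) (E b d e) (E c d e)) 0) (walk n (E a b c) (E a b d) (E b c d) (E a c d) (E a b e) (E b c e) (E a c e) (E b d e) (E a d e) (E c d e))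
        (cond (Nat.beq (tg (E a b c) (E a b d) (E a c d) (E b c d) (E a b e) (E a c e) (E b c e) (E a d e) (E b d e) (E c d e)) 1) (walk n (E a b c) (E a c d) (E a b d) (E b c d) (E a c e) (E a b e) (E b c e) (E a d e) (E c d e) (E b d e))
        (cond (Nat.beq (tg (E a b c) (E a b d) (E a c d) (E b c d) (E a b e) (E a c e) (E b c e) (E a d e) (E b d e) (E c d e)) 2) (walk n (E a b d) (E a b c) (E a c d) (E b c d) (E a b e) (E a d e) (E b d e) (E a c e) (E b c e) (E c d e))
        (cond (Nat.beq (tg (E a b c) (E a b d) (E a c d) (E b c d) (E a b e) (E a c e) (E b c e) (E a d e) (E b d e) (E c d e)) 3) (walk n (E a b c) (E a b e) (E a c e) (E b c e) (E a b d) (E a c d) (E b c d) (E a d e) (E b d e) (E c d e)) false))))) = true at h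
      cases h4 : Nat.beq (tg (E a b c) (E a b d) (E a c d) (E b c d) (E a b e) (E a c e) (E b c e) (E a d e) (E b d e) (E c d e)) 4 with
      | true => exact hr _ _ _ _ _ _ (Nat.eq_of_beq_eq_true h4)
      | false =>
      rw [h4] at h
      cases h5 : Nat.beq (tg (E a b c) (E a b d) (E a c d) (E b c d) (E a b e) (E a c e) (E b c e) (E a d e) (E b d e) (E c d e)) 0 with
      | true =>
        rw [h5] at h
        apply h0
        apply ih
        rw [hE.h213 a b c, hE.h213 a b d, hE.h213 a b e]
        exact h
      | false =>
      rw [h5] at h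
      cases h6 : Nat.beq (tg (E a b c) (E a b d) (E a c d) (E b c d) (E a b e) (E a c e) (E b c e) (E a d e) (E b d e) (E c d e)) 1 with
      | true =>
        rw [h6] at h
        apply h1
        apply ih
        rw [hE.h132 a b c, hE.h213 b c d, hE.h213 b c e]
        exact h
      | false =>
      rw [h6] at h
      cases h7 : Nat.beq (tg (E a b c) (E a b d) (E a c d) (E b c d) (E a b e) (E a c e) (E b c e) (E a d e) (E b d e) (E c d e)) 2 with
      | true =>
        rw [h7] at h
        apply h2
        apply ih
        rw [hE.h132 a c d, hE.h132 b c d, hE.h213 c d e]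
        exact h
      | false =>
      rw [h7] at h
      cases h8 : Nat.beq (tg (E a b c) (E a b d) (E a c d) (E b c d) (E a b e) (E a c e) (E b c e) (E a d e) (E b d e) (E c d e)) 3 with
      | true =>
        rw [h8] at h
        apply h3
        apply ih
        rw [hE.h132 a d e, hE.h132 b d e, hE.h132 c d e]
        exact h
      | false => rw [h8] at h; simp at h
  have h := (B2_true (B2_true (B2_true (B2_true (B2_true (B2_true (B2_true (B2_true (B2_true (B2_true walk_all (hE.b a b c)) (hE.b a b d)) (hE.b a c d)) (hE.b b c d)) (hE.b a b e)) (hE.b a c e)) (hE.b b c e)) (hE.b a d e)) (hE.b b d e)) (hE.b c d e))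
  have h5 : five (E a b c) (E a b d) (E a c d) (E b c d) (E a b e) (E a c e) (E b c e) (E a d e) (E b d e) (E c d e) = false := by
    unfold five
    rw [hK a b c d, hK a b c e, hK a b d e, hK a c d e, hK b c d e]
    rfl
  exact key _ _ _ _ _ _ _ (or_false_left h h5)

def lec (c b012 b013 b023 b123 b014 b024 b124 b034 b134 b234 b015 b025 b125 b035 b135 b235 b045 b145 b245 b345 : ℕ) : Bool := and (Nat.ble b012 (bt c 0)) (and (Nat.ble b013 (bt c 1)) (and (Nat.ble b023 (bt c 2)) (and (Nat.ble b123 (bt c 3)) (and (Nat.ble b014 (bt c 4)) (and (Nat.ble b024 (bt c 5)) (and (Nat.ble b124 (bt c 6)) (and (Nat.ble b034 (bt c 7)) (and (Nat.ble b134 (bt c 8)) (and (Nat.ble b234 (bt c 9)) (and (Nat.ble b015 (bt c 10)) (and (Nat.ble b025 (bt c 11)) (and (Nat.ble b125 (bt c 12)) (and (Nat.ble b035 (bt c 13)) (and (Nat.ble b135 (bt c 14)) (and (Nat.ble b235 (bt c 15)) (and (Nat.ble b045 (bt c 16)) (and (Nat.ble b145 (bt c 17)) (and (Nat.ble b245 (bt c 18)) (Nat.ble b345 (bt c 19))))))))))))))))))))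

def sm (b012 b013 b023 b123 b014 b024 b124 b034 b134 b234 b015 b025 b125 b035 b135 b235 b045 b145 b245 b345 : ℕ) : ℕ := Nat.add (Nat.add (Nat.add (Nat.add (Nat.add (Nat.add (Nat.add (Nat.add (Nat.add (Nat.add (Nat.add (Nat.add (Nat.add (Nat.add (Nat.add (Nat.add (Nat.add (Nat.add (Nat.add (b012) b013) b023) b123) b014) b024) b124) b034) b134) b234) b015) b025) b125) b035) b135) b235) b045) b145) b245) b345

/-- pictures of six patterns: code, pattern, relabelling -/
def IM : List (ℕ × ℕ × ℕ) := [(1046547, 81150, 22737), (971959, 227821, 55504), (969982, 261091, 55504), (964029, 261091, 55056), (884252, 227895, 19034), (521015, 261091, 46432), (904669, 261091, 176800), (752254, 261091, 177416), (1043529, 81150, 22667), (1022103, 96747, 47776), (948923, 261091, 54944), (898430, 261091, 177248), (928951, 81150, 72472), (642231, 81150, 86808), (945885, 261091, 169744), (874171, 227821, 170178), (883543, 261091, 105232), (1045541, 81150, 22681), (490397, 261091, 178312), (373943, 81150, 88152), (516350, 227821, 168218), (969783, 96747, 22737), (760253, 227821, 170010), (1040439, 96747, 46432),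 (110267, 81150, 181336), (767847, 261091, 105120), (933694, 261091, 170192), (1039494, 81150, 21785), (768827, 261091, 119568), (882493, 261091, 119456), (511943, 261091, 103776), (972983, 227821, 55448), (818684, 261091, 109320), (963735, 96747, 22289), (995143, 227821, 72472), (760285, 227821, 170003), (786016, 81150, 10851), (648765, 96747, 119456), (896347, 227821, 55490), (908628, 227895, 22667), (454585, 261091, 107360), (227511, 81150, 88264), (1022365, 227821, 72227), (1004711, 96747, 47888), (949788, 227895, 19027), (227836, 227821, 174280), (642875, 227821, 180944), (776919, 261091, 47776), (718549, 227821, 86787), (643001, 227821, 172824), (112349, 96747, 181840), (366267, 96747, 178193), (1003707, 96747, 105218), (695358, 89031, 22737), (451741, 89031, 22289), (1031434, 81150, 21771), (175803, 227895, 146000), (906419, 96747, 15121), (1040510, 227821, 69987), (81150, 81150, 181896), (914772, 227895, 21771), (93629, 81150, 181448), (948391, 96747, 22177), (603959, 227895, 152272), (928955, 227895, 170192), (965816, 227895, 22681), (155006, 81150, 181889), (524160, 81150, 9059),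 (372990, 96747, 177185), (1014300, 227895, 10851), (686621, 89031, 86724), (505771, 261091, 178256), (773867, 261091, 176912), (339671, 81150, 174168), (161245, 81150, 181441), (649531, 96747, 119568), (120663, 227895, 145986), (471993, 227895, 132938), (958523, 96984, 22737), (647030, 261091, 180944), (962027, 261091, 169632), (450358, 227821, 88131), (302718, 81150, 181777), (415547, 81150, 174147), (118590, 96747, 180944), (640699, 96747, 176401), (184125, 96747, 181826), (315195, 96747, 181770), (904475, 96747, 22282), (873815, 227895, 170178), (733725, 96984, 43555), (499997, 96984, 164515), (817214, 89031, 54944), (906727, 261091, 47888), (374522, 227821, 174168), (979127, 227821, 54552), (702173, 227821, 180867), (601911, 81150, 172824), (367325, 81150, 174105), (982192, 81150, 11033), (1016316, 81150, 164963), (993623, 96747, 105232), (368286, 96747, 119904), (898139, 96747, 22730), (714333, 96747, 119428), (241123, 227895, 88264), (251363, 227895, 88257), (949432, 227895, 22737), (978104, 227895, 21785), (1017315, 227895, 67817), (407355, 227895, 153154), (438458, 96984, 84568),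 (628501, 96984, 119057), (436538, 96984, 88131), (635221, 96984, 54531), (739869, 96984, 43548), (508061, 96984, 164508), (241980, 96984, 99436), (248028, 96984, 98988), (471611, 89031, 146000), (701502, 89031, 55056), (873590, 89031, 47888), (759926, 89031, 47776), (621085, 89031, 86752), (510165, 89031, 15009), (766262, 89031, 13665), (191035, 89031, 153154)]

def M6 : List ℕ := [261091, 227821, 81150, 96747, 227895, 96984, 89031]

def IC : List ℕ := [1046547, 971959, 969982, 964029, 884252, 521015, 904669, 752254, 1043529, 1022103, 948923, 898430, 928951, 642231, 945885, 874171, 883543, 1045541, 490397, 373943, 516350, 969783, 760253, 1040439, 110267, 767847, 933694, 1039494, 768827, 882493, 511943, 972983, 818684, 963735, 995143, 760285, 786016, 648765, 896347, 908628, 454585, 227511, 1022365, 1004711, 949788, 227836, 642875, 776919, 718549, 643001, 112349, 366267, 1003707, 695358, 451741, 1031434, 175803, 906419, 1040510, 81150, 914772, 93629, 948391, 603959, 928955, 965816, 155006, 524160, 372990, 1014300, 686621, 505771, 773867, 339671, 161245, 649531, 120663, 471993, 958523,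 647030, 962027, 450358, 302718, 415547, 118590, 640699, 184125, 315195, 904475, 873815, 733725, 499997, 817214, 906727, 374522, 979127, 702173, 601911, 367325, 982192, 1016316, 993623, 368286, 898139, 714333, 241123, 251363, 949432, 978104, 1017315, 407355, 438458, 628501, 436538, 635221, 739869, 508061, 241980, 248028, 471611, 701502, 873590, 759926, 621085, 510165, 766262, 191035]

theorem im1 : IM.map Prod.fst = IC := by decide +kernel

theorem im2 : (IM.all fun t => M6.any (fun m => m == t.2.1) && supB t.2.1 t.1 t.2.2) = true := by
  decide +kernel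

def chkC (b012 b013 b023 b123 b014 b024 b124 b034 b134 b234 : ℕ) : Bool :=
  B2 fun b015 => B2 fun b025 => B2 fun b125 => or (k4b b012 b015 b025 b125) (B2 fun b035 => B2 fun b135 => or (k4b b013 b015 b035 b135) (B2 fun b235 => or (k4b b023 b025 b035 b235) (or (k4b b123 b125 b135 b235) (B2 fun b045 => B2 fun b145 => or (k4b b014 b015 b045 b145) (B2 fun b245 => or (k4b b024 b025 b045 b245) (or (k4b b124 b125 b145 b245) (B2 fun b345 => or (k4b b034 b035 b045 b345) (or (k4b b134 b135 b145 b345) (or (k4b b234 b235 b245 b345) (or (Nat.blt 8 (sm b012 b013 b023 b123 b014 b024 b124 b034 b134 b234 b015 b025 b125 b035 b135 b235 b045 b145 b245 b345)) (anyL IC fun c => lec c b012 b013 b023 b123 b014 b024 b124 b034 b134 b234 b015 b025 b125 b035 b135 b235 b045 b145 b245 b345)))))))))))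

def allC : Bool := B2 fun b012 => B2 fun b013 => B2 fun b023 => B2 fun b123 => B2 fun b014 => B2 fun b024 => B2 fun b124 => B2 fun b034 => B2 fun b134 => B2 fun b234 => or (not (Nat.beq (tg b012 b013 b023 b123 b014 b024 b124 b034 b134 b234) 4)) (chkC b012 b013 b023 b123 b014 b024 b124 b034 b134 b234)

theorem allC_true : allC = true := by decide +kernel

end Pool.Agent.Q133.SX
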