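import Pool.Agent.Q133.SX.Sup

/-! Turán's construction on `3 m` vertices. -/

set_option autoImplicit false
set_option maxRecDepth 100000
set_option maxHeartbeats 4000000
open Finset
open scoped Classical

namespace Pool.Agent.Q133.SX
open Pool.Agent.H122R2.N6 Pool.Agent.H37R3.Cop

/-- the numbers of vertices of an edge in the three parts -/
def profs : Finset (Fin 3 → ℕ) := {![1, 1, 1], ![2, 1, 0], ![0, 2, 1], ![1, 0, 2]}

/-- the set with given parts -/
def J {m : ℕ} (s : Fin 3 → Finset (Fin m)) : Finset (Fin 3 × Fin m) :=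
  univ.filter fun x => x.2 ∈ s x.1

theorem J_inj {m : ℕ} : Function.Injective (J (m := m)) := by
  intro s t h
  funext q
  ext i
  have h1 : (q, i) ∈ J s ↔ (q, i) ∈ J t := by rw [h]
  simpa [J] using h1

/-- the vertices of `e` in part `q` -/
def pt {m : ℕ} (e : Finset (Fin 3 × Fin m)) (q : Fin 3) : Finset (Fin m) :=
  univ.filter fun i => (q, i) ∈ e

theorem J_pt {m : ℕ} (e : Finset (Fin 3 × Fin m)) : J (pt e) = e := by
  ext ⟨q, i⟩
  simp [J, pt]

theorem pt_J {m : ℕ} (s : Fin 3 → Finset (Fin m)) : pt (J s) = s :=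
  J_inj (J_pt _)

/-- Turán's construction: the triples which meet all three parts, and those with two vertices in a part
and one in the next -/
noncomputable def tur (m : ℕ) : Finset (Finset (Fin 3 × Fin m)) :=
  univ.filter fun e => (fun q => (pt e q).card) ∈ profs

theorem tur_card (m : ℕ) : (tur m).card = m ^ 3 + 3 * (m.choose 2 * m) := by
  have e1 : tur m = (profs.biUnion fun p => Fintype.piFinset fun q =>
      powersetCard (p q) (univ : Finset (Fin m))).image J := by
    ext e
    unfold tur
    simp only [mem_filter, mem_univ, true_and, mem_image, mem_biUnion, Fintype.mem_piFinset,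
      mem_powersetCard, subset_univ]
    constructor
    · intro h
      exact ⟨pt e, ⟨_, h, fun q => rfl⟩, J_pt e⟩
    · rintro ⟨s, ⟨p, hp, hs⟩, rfl⟩
      rw [pt_J]
      have : (fun q => (s q).card) = p := funext hs
      rw [this]; exact hp
  rw [e1, card_image_of_injective _ J_inj, card_biUnion]
  · simp only [Fintype.card_piFinset, card_powersetCard, card_univ, Fintype.card_fin]
    have h1 : (![1, 1, 1] : Fin 3 → ℕ) ∉ ({![2, 1, 0], ![0, 2, 1], ![1, 0, 2]} : Finset (Fin 3 → ℕ)) := by decide
    have h2 : (![2, 1, 0] : Fin 3 → ℕ) ∉ ({![0, 2, 1], ![1, 0, 2]} : Finset (Fin 3 → ℕ)) := by decide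
    have h3 : (![0, 2, 1] : Fin 3 → ℕ) ∉ ({![1, 0, 2]} : Finset (Fin 3 → ℕ)) := by decide
    unfold profs
    rw [sum_insert h1, sum_insert h2, sum_insert h3, sum_singleton]
    simp only [Fin.prod_univ_three]
    change (m.choose 1 * m.choose 1 * m.choose 1) + ((m.choose 2 * m.choose 1 * m.choose 0) +
      ((m.choose 0 * m.choose 2 * m.choose 1) + (m.choose 1 * m.choose 0 * m.choose 2))) = _
    simp only [Nat.choose_one_right, Nat.choose_zero_right]
    ring
  · intro p _ q _ hpq
    change Disjoint _ _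
    rw [disjoint_left]
    intro s hs ht
    rw [Fintype.mem_piFinset] at hs ht
    apply hpq
    funext r
    rw [← (mem_powersetCard.mp (hs r)).2, ← (mem_powersetCard.mp (ht r)).2]

theorem card_parts {m : ℕ} (e : Finset (Fin 3 × Fin m)) :
    e.card = (pt e 0).card + (pt e 1).card + (pt e 2).card := by
  have h : e.card = ∑ q : Fin 3, (e.filter fun x => x.1 = q).card :=
    card_eq_sum_card_fiberwise fun x _ => mem_univ x.1
  have h2 : ∀ q : Fin 3, (e.filter fun x => x.1 = q).card = (pt e q).card := by
    intro q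
    refine card_bij' (fun x _ => x.2) (fun i _ => (q, i)) ?_ ?_ ?_ ?_
    · rintro ⟨a, i⟩ hx
      rw [mem_filter] at hx
      obtain ⟨hx, rfl⟩ := hx
      simpa [pt] using hx
    · intro i hi
      simpa [pt] using hi
    · rintro ⟨a, i⟩ hx
      rw [mem_filter] at hx
      obtain ⟨hx, rfl⟩ := hx
      rfl
    · intro i hi
      rfl
  rw [h, Fin.sum_univ_three, h2, h2, h2]

theorem tri3 {v : Fin 3 → ℕ} {a b c : ℕ} (h : v = ![a, b, c]) : v 0 = a ∧ v 1 = b ∧ v 2 = c :=
  ⟨congrFun h 0, congrFun h 1, congrFun h 2⟩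

theorem tur_unif (m : ℕ) : ∀ e ∈ tur m, e.card = 3 := by
  intro e he
  unfold tur at he
  rw [mem_filter] at he
  have h := he.2
  rw [card_parts]
  simp only [profs, mem_insert, mem_singleton] at h
  rcases h with h | h | h | h <;>
  · obtain ⟨h0, h1, h2⟩ := tri3 h
    omega

/-- the profile of the image of a set under an injective map -/
theorem prof_image {k m : ℕ} {f : Fin k → Fin 3 × Fin m} (hf : Function.Injective f)
    (t : Finset (Fin k)) (q : Fin 3) :
    (pt (t.image f) q).card = (t.filter fun a => (f a).1 = q).card := by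
  have h1 : (t.filter fun a => (f a).1 = q).card = ((t.filter fun a => (f a).1 = q).image f).card :=
    (card_image_of_injective _ hf).symm
  rw [h1]
  refine card_bij' (fun i _ => (q, i)) (fun x _ => x.2) ?_ ?_ ?_ ?_
  · intro i hi
    unfold pt at hi
    rw [mem_filter, mem_image] at hi
    obtain ⟨-, a, ha, hai⟩ := hi
    rw [mem_image]
    exact ⟨a, mem_filter.mpr ⟨ha, by rw [hai]⟩, hai⟩
  · rintro ⟨b, i⟩ hx
    rw [mem_image] at hx
    obtain ⟨a, ha, hai⟩ := hx
    rw [mem_filter] at ha
    unfold pt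
    rw [mem_filter, mem_image]
    refine ⟨mem_univ _, a, ha.1, ?_⟩
    rw [hai] at ha
    rw [hai, ← ha.2]
  · intro i hi; rfl
  · rintro ⟨b, i⟩ hx
    rw [mem_image] at hx
    obtain ⟨a, ha, hai⟩ := hx
    rw [mem_filter, hai] at ha
    rw [← ha.2]

/-- allowed numbers, for the kernel -/
def okP (a b c : ℕ) : Bool :=
  (a == 1 && b == 1 && c == 1) || (a == 2 && b == 1 && c == 0) || (a == 0 && b == 2 && c == 1) ||
    (a == 1 && b == 0 && c == 2)

theorem okP_of {m : ℕ} {e : Finset (Fin 3 × Fin m)} (he : e ∈ tur m) :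
    okP (pt e 0).card (pt e 1).card (pt e 2).card = true := by
  unfold tur at he
  rw [mem_filter] at he
  have h := he.2
  simp only [profs, mem_insert, mem_singleton] at h
  rcases h with h | h | h | h <;>
  · obtain ⟨h0, h1, h2⟩ := tri3 h
    rw [h0, h1, h2]
    rfl

/-- the colouring `c` of the vertices of a triple is that of an edge -/
def okC {k : ℕ} (c : Fin k → Fin 3) (t : Finset (Fin k)) : Bool :=
  okP (t.filter fun a => c a = 0).card (t.filter fun a => c a = 1).card (t.filter fun a => c a = 2).card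

theorem okC_of {k m : ℕ} {f : Fin k → Fin 3 × Fin m} (hf : Function.Injective f)
    {t : Finset (Fin k)} (h : t.image f ∈ tur m) : okC (fun a => (f a).1) t = true := by
  have h1 := okP_of h
  rw [prof_image hf, prof_image hf, prof_image hf] at h1
  unfold okC
  exact h1

theorem c4 : ∀ a b c d : Fin 3, ∃ t ∈ (univ : Finset (Fin 4)).powersetCard 3,
    okC ![a, b, c, d] t = false := by
  decide +kernel

theorem tur_free (m : ℕ) : K43Free (tur m) := by
  intro S hS
  by_contra hno
  push Not at hno
  have hc : Fintype.card S = 4 := by rw [Fintype.card_coe]; exact hS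
  obtain ⟨e⟩ := Fintype.card_eq.mp (hc.trans (Fintype.card_fin 4).symm)
  let f : Fin 4 → Fin 3 × Fin m := fun i => (e.symm i : Fin 3 × Fin m)
  have hf : Function.Injective f := fun i j h => e.symm.injective (Subtype.ext h)
  obtain ⟨t, ht, hcol⟩ := c4 (f 0).1 (f 1).1 (f 2).1 (f 3).1
  rw [mem_powersetCard] at ht
  have h1 : t.image f ∈ tur m := by
    refine hno _ ?_ ?_
    · intro x hx
      rw [mem_image] at hx
      obtain ⟨i, -, rfl⟩ := hx
      exact (e.symm i).2
    · rw [card_image_of_injective _ hf]; exact ht.2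
  have h2 := okC_of hf h1
  have e2 : (fun a => (f a).1) = ![(f 0).1, (f 1).1, (f 2).1, (f 3).1] := by
    funext i; fin_cases i <;> rfl
  rw [e2, hcol] at h2
  exact absurd h2 (by decide)

/-- no colouring of the six vertices makes all members of `F` coloured as edges -/
def NoCol (F : Finset (Finset (Fin 6))) : Prop :=
  ∀ a b c d e f : Fin 3, ∃ t ∈ F, okC ![a, b, c, d, e, f] t = false

instance (F : Finset (Finset (Fin 6))) : Decidable (NoCol F) := by
  unfold NoCol; infer_instance

theorem tur_noF {F : Finset (Finset (Fin 6))} (h : NoCol F) (m : ℕ) (S : Finset (Fin 3 × Fin m)) :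
    ¬ Spans F (tur m) S := by
  rintro ⟨f, hf, -, hfe⟩
  obtain ⟨t, ht, hcol⟩ := h (f 0).1 (f 1).1 (f 2).1 (f 3).1 (f 4).1 (f 5).1
  have h1 : t.image f ∈ tur m := by
    have h0 := hfe t ht
    have e0 : @Finset.image _ _ (fun a b => Classical.propDecidable (a = b)) f t = t.image f := by
      ext v
      simp only [mem_image]
    rw [e0] at h0
    exact h0
  have h2 := okC_of hf h1
  have e2 : (fun a => (f a).1) = ![(f 0).1, (f 1).1, (f 2).1, (f 3).1, (f 4).1, (f 5).1] := by
    funext i; fin_cases i <;> rfl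
  rw [e2, hcol] at h2
  exact absurd h2 (by decide)

end Pool.Agent.Q133.SX
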